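import Pool.Agent.Y303.SK.Stm

/-!
# SK-MM: elementary properties of the main modes
-/

open Set Filter Topology MeasureTheory Metric

set_option autoImplicit false

namespace Pool.Agent.Y978.SK

open Pool.Agent.Y5 (E3)
open Pool.Agent.Y303.SK

/-! ### Rescaling -/

theorem sc_hasFDerivAt (p : E3) (r : ℝ) {F : E3 → E3} (hF : Differentiable ℝ F) (x : E3) :
    HasFDerivAt (sc p r F)
      ((r * √r)⁻¹ • ((fderiv ℝ F (r⁻¹ • (x - p))).comp (r⁻¹ • ContinuousLinearMap.id ℝ E3))) x := by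
  have h1 : HasFDerivAt (fun x : E3 => r⁻¹ • (x - p)) (r⁻¹ • ContinuousLinearMap.id ℝ E3) x :=
    ((hasFDerivAt_id x).sub_const p).const_smul r⁻¹
  have h2 : HasFDerivAt (fun x : E3 => F (r⁻¹ • (x - p)))
      ((fderiv ℝ F (r⁻¹ • (x - p))).comp (r⁻¹ • ContinuousLinearMap.id ℝ E3)) x :=
    (hF (r⁻¹ • (x - p))).hasFDerivAt.comp x h1
  exact h2.const_smul (r * √r)⁻¹

theorem sc_fderiv (p : E3) (r : ℝ) {F : E3 → E3} (hF : Differentiable ℝ F) (x v : E3) :
    fderiv ℝ (sc p r F) x v = ((r * √r)⁻¹ * r⁻¹) • fderiv ℝ F (r⁻¹ • (x - p)) v := by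
  rw [(sc_hasFDerivAt p r hF x).fderiv]
  show (r * √r)⁻¹ • (fderiv ℝ F (r⁻¹ • (x - p))) (r⁻¹ • v) = _
  rw [map_smul, smul_smul]

theorem int_sc (p : E3) {r : ℝ} (hr : 0 < r) (f : E3 → ℝ) :
    ∫ x, f (r⁻¹ • (x - p)) = r ^ 3 * ∫ x, f x := by
  rw [integral_sub_right_eq_self (fun x => f (r⁻¹ • x)) p,
    Measure.integral_comp_inv_smul_of_nonneg volume f hr.le, finrank_euclideanSpace_fin,
    smul_eq_mul]

theorem csq {r : ℝ} (hr : 0 < r) : ((r * √r)⁻¹) ^ 2 * r ^ 3 = 1 := by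
  have h1 : (√r) ^ 2 = r := Real.sq_sqrt hr.le
  have h2 : (r * √r) ^ 2 = r ^ 3 := by
    rw [mul_pow, h1]
    ring
  rw [inv_pow, h2]
  exact inv_mul_cancel₀ (by positivity)

theorem ipr_sc (p : E3) {r : ℝ} (hr : 0 < r) (F G : E3 → E3) :
    ipr (sc p r F) (sc p r G) = ipr F G := by
  unfold ipr sc
  have h1 : ∀ x : E3, inner ℝ ((r * √r)⁻¹ • F (r⁻¹ • (x - p)))
      ((r * √r)⁻¹ • G (r⁻¹ • (x - p))) = ((r * √r)⁻¹) ^ 2 *
      (fun y => inner ℝ (F y) (G y)) (r⁻¹ • (x - p)) := by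
    intro x
    rw [real_inner_smul_left, real_inner_smul_right]
    ring
  simp_rw [h1]
  rw [integral_const_mul, int_sc p hr (fun y => inner ℝ (F y) (G y)), ← mul_assoc, csq hr,
    one_mul]

theorem dirf_sc (p : E3) {r : ℝ} (hr : 0 < r) {F G : E3 → E3} (hF : Differentiable ℝ F)
    (hG : Differentiable ℝ G) : dirf (sc p r F) (sc p r G) = (r ^ 2)⁻¹ * dirf F G := by
  unfold dirf
  have h1 : ∀ x : E3, ∑ i : Fin 3, inner ℝ (fderiv ℝ (sc p r F) x (cv i))
      (fderiv ℝ (sc p r G) x (cv i)) = (((r * √r)⁻¹) ^ 2 * (r ^ 2)⁻¹) *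
      (fun y => ∑ i : Fin 3, inner ℝ (fderiv ℝ F y (cv i)) (fderiv ℝ G y (cv i)))
        (r⁻¹ • (x - p)) := by
    intro x
    rw [Finset.mul_sum]
    refine Finset.sum_congr rfl fun i _ => ?_
    rw [sc_fderiv p r hF, sc_fderiv p r hG, real_inner_smul_left, real_inner_smul_right]
    rw [← inv_pow r 2]
    ring
  simp_rw [h1]
  rw [integral_const_mul, int_sc p hr
    (fun y => ∑ i : Fin 3, inner ℝ (fderiv ℝ F y (cv i)) (fderiv ℝ G y (cv i)))]
  generalize ∫ x, (fun y => ∑ i : Fin 3, inner ℝ (fderiv ℝ F y (cv i))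
    (fderiv ℝ G y (cv i))) x = I
  have h2 := csq hr
  calc ((r * √r)⁻¹) ^ 2 * (r ^ 2)⁻¹ * (r ^ 3 * I) =
      (((r * √r)⁻¹) ^ 2 * r ^ 3) * ((r ^ 2)⁻¹ * I) := by ring
    _ = (r ^ 2)⁻¹ * I := by rw [h2, one_mul]

theorem sc_ball (p : E3) {r : ℝ} (hr : 0 < r) {ρ : ℝ} {x : E3} :
    r⁻¹ • (x - p) ∈ ball (0 : E3) ρ ↔ x ∈ ball p (r * ρ) := by
  rw [mem_ball_zero_iff, norm_smul, norm_inv, Real.norm_of_nonneg hr.le, mem_ball_iff_norm,
    inv_mul_lt_iff₀ hr]

theorem sc_closedBall (p : E3) {r : ℝ} (hr : 0 < r) {ρ : ℝ} {x : E3} :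
    r⁻¹ • (x - p) ∈ closedBall (0 : E3) ρ ↔ x ∈ closedBall p (r * ρ) := by
  rw [mem_closedBall_zero_iff, norm_smul, norm_inv, Real.norm_of_nonneg hr.le,
    mem_closedBall_iff_norm, inv_mul_le_iff₀ hr]

/-- the change of variables as a homeomorphism -/
noncomputable def hom (p : E3) (r : ℝ) (hr : r ≠ 0) : E3 ≃ₜ E3 :=
  (Homeomorph.subRight p).trans (Homeomorph.smulOfNeZero r⁻¹ (inv_ne_zero hr))

theorem hom_apply (p : E3) (r : ℝ) (hr : r ≠ 0) (x : E3) : hom p r hr x = r⁻¹ • (x - p) := rfl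

theorem cs_sc (p : E3) {r : ℝ} (hr : 0 < r) {A : Set E3} {F : E3 → E3} (hF : CS A F) :
    CS {x | r⁻¹ • (x - p) ∈ A} (sc p r F) := by
  have hsub : tsupport (sc p r F) ⊆ {x | r⁻¹ • (x - p) ∈ tsupport F} := by
    refine closure_minimal ?_ ?_
    · intro x hx
      refine subset_tsupport _ ?_
      intro h0
      apply hx
      unfold sc
      rw [h0, smul_zero]
    · exact (isClosed_tsupport F).preimage (by fun_prop)
  refine ⟨?_, ?_, ?_, ?_⟩
  · unfold sc
    have h1 : ContDiff ℝ (⊤ : ℕ∞) (fun x : E3 => r⁻¹ • (x - p)) :=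
      (contDiff_id.sub contDiff_const).const_smul r⁻¹
    exact (hF.smooth.comp h1).const_smul (r * √r)⁻¹
  · have h1 : HasCompactSupport (F ∘ (hom p r hr.ne')) := hF.cpt.comp_homeomorph _
    refine h1.mono ?_
    intro x hx h0
    apply hx
    unfold sc
    have h2 : F (r⁻¹ • (x - p)) = 0 := h0
    rw [h2, smul_zero]
  · intro x hx
    exact hF.supp (hsub hx)
  · intro x
    have hd := hF.smooth.differentiable (by norm_num)
    unfold dvg
    have h1 : ∀ i : Fin 3, (fderiv ℝ (sc p r F) x (cv i)) i = ((r * √r)⁻¹ * r⁻¹) *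
        (fderiv ℝ F (r⁻¹ • (x - p)) (cv i)) i := by
      intro i
      rw [sc_fderiv p r hd]
      rfl
    rw [Finset.sum_congr rfl fun i _ => h1 i, ← Finset.mul_sum]
    have h2 := hF.dv (r⁻¹ • (x - p))
    unfold dvg at h2
    rw [h2, mul_zero]

theorem cs_comb {A B Ω : Set E3} {u v : E3 → E3} (hu : CS A u) (hv : CS B v) (hA : A ⊆ Ω)
    (hB : B ⊆ Ω) (a b : ℝ) : CS Ω (fun x => a • u x + b • v x) := by
  have h1 : HasCompactSupport (fun x => a • u x) := by
    refine hu.cpt.mono ?_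
    intro x hx h0
    apply hx
    simp only
    rw [h0, smul_zero]
  have h2 : HasCompactSupport (fun x => b • v x) := by
    refine hv.cpt.mono ?_
    intro x hx h0
    apply hx
    simp only
    rw [h0, smul_zero]
  refine ⟨?_, h1.add h2, ?_, ?_⟩
  · exact (hu.smooth.const_smul a).add (hv.smooth.const_smul b)
  · have h3 : tsupport (fun x => a • u x + b • v x) ⊆ tsupport u ∪ tsupport v := by
      refine closure_minimal ?_ ((isClosed_tsupport u).union (isClosed_tsupport v))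
      intro x hx
      by_contra hcon
      rw [mem_union, not_or] at hcon
      apply hx
      simp only
      rw [image_eq_zero_of_notMem_tsupport hcon.1, image_eq_zero_of_notMem_tsupport hcon.2,
        smul_zero, smul_zero, add_zero]
    exact h3.trans (union_subset (hu.supp.trans hA) (hv.supp.trans hB))
  · intro x
    have d1 := (hu.smooth.differentiable (by norm_num)) x
    have d2 := (hv.smooth.differentiable (by norm_num)) x
    have e1 : fderiv ℝ (fun x => a • u x + b • v x) x = a • fderiv ℝ u x + b • fderiv ℝ v x :=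
      ((d1.hasFDerivAt.const_smul a).add (d2.hasFDerivAt.const_smul b)).fderiv
    unfold dvg
    rw [e1]
    have h3 : ∀ i : Fin 3, ((a • fderiv ℝ u x + b • fderiv ℝ v x) (cv i)) i =
        a * (fderiv ℝ u x (cv i)) i + b * (fderiv ℝ v x (cv i)) i := fun i => rfl
    rw [Finset.sum_congr rfl fun i _ => h3 i, Finset.sum_add_distrib, ← Finset.mul_sum,
      ← Finset.mul_sum]
    have h4 := hu.dv x
    have h5 := hv.dv x
    unfold dvg at h4 h5
    rw [h4, h5, mul_zero, mul_zero, add_zero]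

/-! ### Integration by parts -/

theorem cs_int {B : Set E3} {u v : E3 → E3} (hu : Continuous u) (hv : CS B v) :
    Integrable (fun x => inner ℝ (u x) (v x)) := by
  refine (hu.inner hv.smooth.continuous).integrable_of_hasCompactSupport ?_
  refine hv.cpt.mono ?_
  intro x hx h0
  apply hx
  simp only
  rw [h0, inner_zero_right]

/-- the integral of a derivative -/
theorem int_deriv {g : E3 → ℝ} (hg : ContDiff ℝ 1 g) (hc : HasCompactSupport g) (v : E3) :
    ∫ x, fderiv ℝ g x v = 0 := by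
  have h1 : Continuous fun x => fderiv ℝ g x v := (hg.continuous_fderiv one_ne_zero).clm_apply
    continuous_const
  have h2 : Integrable (fun x => fderiv ℝ g x v) :=
    h1.integrable_of_hasCompactSupport (hc.fderiv_apply ℝ v)
  have h3 : Integrable g := hg.continuous.integrable_of_hasCompactSupport hc
  have h := integral_mul_fderiv_eq_neg_fderiv_mul_of_integrable (μ := (volume : Measure E3))
    (𝕜 := ℝ) (f := fun _ : E3 => (1 : ℝ)) (g := g) (v := v) (by simp) (by simpa using h2)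
    (by simpa using h3) (fun x _ => (differentiable_const _) x)
    (fun x _ => (hg.differentiable one_ne_zero) x)
  simpa using h

theorem Sm_apply (x : E3) : Sm x = WithLp.toLp 2 ![x 0, x 1, -2 * x 2] := rfl

theorem fderiv_inner_const {w : E3 → E3} (hw : Differentiable ℝ w) (c x v : E3) :
    fderiv ℝ (fun y => inner ℝ c (w y)) x v = inner ℝ c (fderiv ℝ w x v) := by
  have h1 : HasFDerivAt (fun y => inner ℝ c (w y)) ((innerSL ℝ c).comp (fderiv ℝ w x)) x :=
    (innerSL ℝ c).hasFDerivAt.comp x (hw x).hasFDerivAt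
  rw [h1.fderiv]
  rfl

theorem fderiv_coord {w : E3 → E3} (hw : Differentiable ℝ w) (i : Fin 3) (x v : E3) :
    fderiv ℝ (fun y => w y i) x v = (fderiv ℝ w x v) i := by
  have h1 : HasFDerivAt (fun y => w y i) ((EuclideanSpace.proj (𝕜 := ℝ) i).comp (fderiv ℝ w x))
      x := (EuclideanSpace.proj (𝕜 := ℝ) i).hasFDerivAt.comp x (hw x).hasFDerivAt
  rw [h1.fderiv]
  rfl

/-- the potential of the linear field -/
noncomputable def phi (p x : E3) : ℝ :=
  ((x 0 - p 0) ^ 2 + (x 1 - p 1) ^ 2 - 2 * (x 2 - p 2) ^ 2) / 2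

theorem phi_smooth (p : E3) : ContDiff ℝ (⊤ : ℕ∞) (phi p) := by
  unfold phi
  fun_prop

theorem phi_deriv (p x v : E3) : fderiv ℝ (phi p) x v =
    (x 0 - p 0) * v 0 + (x 1 - p 1) * v 1 - 2 * (x 2 - p 2) * v 2 := by
  have hx : ∀ i : Fin 3, HasFDerivAt (fun y : E3 => y i) (EuclideanSpace.proj (𝕜 := ℝ) i) x :=
    fun i => (EuclideanSpace.proj (𝕜 := ℝ) i).hasFDerivAt
  have h1 := ((((hx 0).sub_const (p 0)).pow 2).add (((hx 1).sub_const (p 1)).pow 2)).sub
    ((((hx 2).sub_const (p 2)).pow 2).const_mul 2)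
  have h2 := h1.mul_const (2⁻¹ : ℝ)
  have h3 : phi p = fun y : E3 =>
      ((y 0 - p 0) ^ 2 + (y 1 - p 1) ^ 2 - 2 * (y 2 - p 2) ^ 2) * 2⁻¹ := rfl
  rw [h3]
  erw [h2.fderiv]
  simp
  ring

/-- linear symmetric gradient fields are orthogonal to divergence-free fields -/
theorem int_Sm {A : Set E3} {w : E3 → E3} (p : E3) (hw : CS A w) :
    ∫ x, inner ℝ (Sm (x - p)) (w x) = 0 := by
  have hd : Differentiable ℝ w := hw.smooth.differentiable (by norm_num)
  have hφ := phi_smooth p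
  have hwi : ∀ i : Fin 3, ContDiff ℝ (⊤ : ℕ∞) (fun x => w x i) := fun i =>
    (EuclideanSpace.proj (𝕜 := ℝ) i).contDiff.comp hw.smooth
  have hwc : ∀ i : Fin 3, HasCompactSupport (fun x => w x i) := by
    intro i
    refine hw.cpt.mono ?_
    intro x hx h0
    apply hx
    simp only
    rw [h0]
    rfl
  have hpart : ∀ i : Fin 3, ∫ x, phi p x * fderiv ℝ (fun x => w x i) x (cv i) =
      -∫ x, fderiv ℝ (phi p) x (cv i) * w x i := by
    intro i
    refine integral_mul_fderiv_eq_neg_fderiv_mul_of_integrable (μ := (volume : Measure E3))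
      ?_ ?_ ?_ (fun x _ => (hφ.differentiable (by norm_num)) x)
      (fun x _ => ((hwi i).differentiable (by norm_num)) x)
    · exact (((hφ.continuous_fderiv (by norm_num)).clm_apply continuous_const).mul
        (hwi i).continuous).integrable_of_hasCompactSupport (hwc i).mul_left
    · exact (hφ.continuous.mul (((hwi i).continuous_fderiv (by norm_num)).clm_apply
        continuous_const)).integrable_of_hasCompactSupport
        ((hwc i).fderiv_apply ℝ (cv i)).mul_left
    · exact (hφ.continuous.mul (hwi i).continuous).integrable_of_hasCompactSupport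
        (hwc i).mul_left
  have hI1 : ∀ i : Fin 3, Integrable (fun x => fderiv ℝ (phi p) x (cv i) * w x i) := fun i =>
    (((hφ.continuous_fderiv (by norm_num)).clm_apply continuous_const).mul
        (hwi i).continuous).integrable_of_hasCompactSupport (hwc i).mul_left
  have hI2 : ∀ i : Fin 3, Integrable (fun x => phi p x * fderiv ℝ (fun x => w x i) x (cv i)) :=
    fun i => (hφ.continuous.mul (((hwi i).continuous_fderiv (by norm_num)).clm_apply
        continuous_const)).integrable_of_hasCompactSupport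
        ((hwc i).fderiv_apply ℝ (cv i)).mul_left
  have h1 : ∀ x, inner ℝ (Sm (x - p)) (w x) = ∑ i : Fin 3, fderiv ℝ (phi p) x (cv i) * w x i := by
    intro x
    rw [Fin.sum_univ_three, phi_deriv, phi_deriv, phi_deriv, Sm_apply, PiLp.inner_apply,
      Fin.sum_univ_three]
    simp [cv]
    ring
  simp_rw [h1]
  rw [integral_finsetSum _ fun i _ => hI1 i]
  have h2 : ∑ i : Fin 3, ∫ x, fderiv ℝ (phi p) x (cv i) * w x i =
      -∑ i : Fin 3, ∫ x, phi p x * fderiv ℝ (fun x => w x i) x (cv i) := by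
    rw [← Finset.sum_neg_distrib]
    refine Finset.sum_congr rfl fun i _ => ?_
    rw [hpart i, neg_neg]
  rw [h2, ← integral_finsetSum _ fun i _ => hI2 i]
  have h3 : ∀ x, ∑ i : Fin 3, phi p x * fderiv ℝ (fun x => w x i) x (cv i) = 0 := by
    intro x
    rw [← Finset.mul_sum]
    have h4 := hw.dv x
    unfold dvg at h4
    rw [Finset.sum_congr rfl fun i _ => fderiv_coord hd i x (cv i), h4, mul_zero]
  simp_rw [h3]
  rw [integral_zero, neg_zero]

theorem sum_deriv {A : Set E3} {w : E3 → E3} (hw : CS A w) :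
    ∫ x, ∑ i : Fin 3, inner ℝ (Sm (cv i)) (fderiv ℝ w x (cv i)) = 0 := by
  have hd : Differentiable ℝ w := hw.smooth.differentiable (by norm_num)
  have hg : ∀ i : Fin 3, ContDiff ℝ (⊤ : ℕ∞) (fun y => inner ℝ (Sm (cv i)) (w y)) := fun i =>
    (innerSL ℝ (Sm (cv i))).contDiff.comp hw.smooth
  have hc : ∀ i : Fin 3, HasCompactSupport (fun y => inner ℝ (Sm (cv i)) (w y)) := by
    intro i
    refine hw.cpt.mono ?_
    intro x hx h0
    apply hx
    simp only
    rw [h0, inner_zero_right]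
  have h1 : ∀ x, ∑ i : Fin 3, inner ℝ (Sm (cv i)) (fderiv ℝ w x (cv i)) =
      ∑ i : Fin 3, fderiv ℝ (fun y => inner ℝ (Sm (cv i)) (w y)) x (cv i) := fun x =>
    Finset.sum_congr rfl fun i _ => (fderiv_inner_const hd _ _ _).symm
  simp_rw [h1]
  rw [integral_finsetSum]
  · exact Finset.sum_eq_zero fun i _ => int_deriv ((hg i).of_le (by norm_num)) (hc i) (cv i)
  · intro i _
    exact (((hg i).continuous_fderiv (by norm_num)).clm_apply
      continuous_const).integrable_of_hasCompactSupport ((hc i).fderiv_apply ℝ (cv i))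

/-! ### Bilinearity -/

theorem dirf_int {A B : Set E3} {u v : E3 → E3} (hu : CS A u) (hv : CS B v) :
    Integrable (fun x => ∑ i : Fin 3, inner ℝ (fderiv ℝ u x (cv i)) (fderiv ℝ v x (cv i))) := by
  refine integrable_finsetSum _ fun i _ => ?_
  refine Continuous.integrable_of_hasCompactSupport ?_ ?_
  · exact ((hu.smooth.continuous_fderiv (by norm_num)).clm_apply continuous_const).inner
      ((hv.smooth.continuous_fderiv (by norm_num)).clm_apply continuous_const)
  · refine (hv.cpt.fderiv_apply ℝ (cv i)).mono ?_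
    intro x hx h0
    apply hx
    simp only at h0 ⊢
    rw [h0, inner_zero_right]

theorem int3 {f g k : E3 → ℝ} (hf : Integrable f) (hg : Integrable g) (hk : Integrable k)
    (a b c : ℝ) : ∫ x, (a * f x + b * g x + c * k x) =
      a * (∫ x, f x) + b * (∫ x, g x) + c * (∫ x, k x) := by
  have h1 : Integrable (fun x => a * f x + b * g x) := (hf.const_mul a).add (hg.const_mul b)
  rw [integral_add h1 (hk.const_mul c), integral_add (hf.const_mul a) (hg.const_mul b),
    integral_const_mul, integral_const_mul, integral_const_mul]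

theorem ipr_comb {A B : Set E3} {u v : E3 → E3} (hu : CS A u) (hv : CS B v) (a b : ℝ) :
    ipr (fun x => a • u x + b • v x) (fun x => a • u x + b • v x) =
      a ^ 2 * ipr u u + 2 * a * b * ipr u v + b ^ 2 * ipr v v := by
  have i1 := cs_int hu.smooth.continuous hu
  have i2 := cs_int hu.smooth.continuous hv
  have i3 := cs_int hv.smooth.continuous hv
  have h1 : ∀ x, inner ℝ (a • u x + b • v x) (a • u x + b • v x) =
      a ^ 2 * inner ℝ (u x) (u x) + 2 * a * b * inner ℝ (u x) (v x) +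
        b ^ 2 * inner ℝ (v x) (v x) := by
    intro x
    simp only [inner_add_left, inner_add_right, real_inner_smul_left, real_inner_smul_right]
    rw [real_inner_comm (u x) (v x)]
    ring
  unfold ipr
  simp_rw [h1]
  exact int3 i1 i2 i3 _ _ _

theorem dirf_comb {A B : Set E3} {u v : E3 → E3} (hu : CS A u) (hv : CS B v) (a b : ℝ) :
    dirf (fun x => a • u x + b • v x) (fun x => a • u x + b • v x) =
      a ^ 2 * dirf u u + 2 * a * b * dirf u v + b ^ 2 * dirf v v := by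
  have i1 := dirf_int hu hu
  have i2 := dirf_int hu hv
  have i3 := dirf_int hv hv
  have e1 : ∀ x, fderiv ℝ (fun x => a • u x + b • v x) x = a • fderiv ℝ u x + b • fderiv ℝ v x := by
    intro x
    have d1 := (hu.smooth.differentiable (by norm_num)) x
    have d2 := (hv.smooth.differentiable (by norm_num)) x
    exact ((d1.hasFDerivAt.const_smul a).add (d2.hasFDerivAt.const_smul b)).fderiv
  have h1 : ∀ x, ∑ i : Fin 3, inner ℝ (fderiv ℝ (fun x => a • u x + b • v x) x (cv i))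
      (fderiv ℝ (fun x => a • u x + b • v x) x (cv i)) =
      a ^ 2 * (∑ i : Fin 3, inner ℝ (fderiv ℝ u x (cv i)) (fderiv ℝ u x (cv i))) +
      2 * a * b * (∑ i : Fin 3, inner ℝ (fderiv ℝ u x (cv i)) (fderiv ℝ v x (cv i))) +
        b ^ 2 * (∑ i : Fin 3, inner ℝ (fderiv ℝ v x (cv i)) (fderiv ℝ v x (cv i))) := by
    intro x
    rw [e1 x, Finset.mul_sum, Finset.mul_sum, Finset.mul_sum, ← Finset.sum_add_distrib,
      ← Finset.sum_add_distrib]
    refine Finset.sum_congr rfl fun i _ => ?_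
    have e2 : (a • fderiv ℝ u x + b • fderiv ℝ v x) (cv i) =
        a • (fderiv ℝ u x (cv i)) + b • (fderiv ℝ v x (cv i)) := rfl
    rw [e2]
    simp only [inner_add_left, inner_add_right, real_inner_smul_left, real_inner_smul_right]
    rw [real_inner_comm (fderiv ℝ u x (cv i)) (fderiv ℝ v x (cv i))]
    ring
  unfold dirf
  simp_rw [h1]
  exact int3 i1 i2 i3 _ _ _

theorem dirf_nonneg (u : E3 → E3) : 0 ≤ dirf u u :=
  integral_nonneg fun _ => Finset.sum_nonneg fun _ _ => real_inner_self_nonneg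

/-! ### The packets -/

section

variable {p : E3} {Ψ H : E3 → E3} {a κ h q q' : ℝ}

theorem q0 (hP : Pk Ψ H a κ h q q') : 0 < q := hP.q'0.trans hP.qq

theorem psi_lin (hP : Pk Ψ H a κ h q q') {r : ℝ} (hr : 0 < r) {x : E3}
    (hx : x ∈ ball p (r * q)) : sc p r Ψ x = ((r * √r)⁻¹ * r⁻¹ * a) • Sm (x - p) := by
  unfold sc
  rw [hP.Ψlin _ ((sc_ball p hr).2 hx), map_smul, smul_smul, smul_smul]
  congr 1
  ring

theorem H_supp (hP : Pk Ψ H a κ h q q') {r : ℝ} (hr : 0 < r) {x : E3}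
    (hx : x ∈ tsupport (sc p r H)) : x ∈ ball p (r * q) ∧ x ∉ closedBall p (r * q') := by
  have h1 := (cs_sc p hr hP.Hcs).supp hx
  exact ⟨(sc_ball p hr).1 h1.1, fun h2 => h1.2 ((sc_closedBall p hr).2 h2)⟩

theorem H_zero (hP : Pk Ψ H a κ h q q') {r : ℝ} (hr : 0 < r) {x : E3}
    (hx : x ∉ ball p (r * q) ∨ x ∈ closedBall p (r * q')) : sc p r H x = 0 := by
  refine image_eq_zero_of_notMem_tsupport fun h1 => ?_
  have h2 := H_supp hP hr h1
  rcases hx with hx | hx
  · exact hx h2.1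
  · exact h2.2 hx

theorem cross_ipr (hP : Pk Ψ H a κ h q q') {r r' : ℝ} (hr : 0 < r) (hr' : 0 < r')
    (hrr : r' ≤ r) : ipr (sc p r Ψ) (sc p r' H) = 0 := by
  unfold ipr
  have h1 : ∀ x, inner ℝ (sc p r Ψ x) (sc p r' H x) =
      ((r * √r)⁻¹ * r⁻¹ * a) * inner ℝ (Sm (x - p)) (sc p r' H x) := by
    intro x
    by_cases hx : x ∈ ball p (r * q)
    · rw [psi_lin hP hr hx, real_inner_smul_left]
    · have h2 : x ∉ ball p (r' * q) := fun h =>
        hx (ball_subset_ball (mul_le_mul_of_nonneg_right hrr (q0 hP).le) h)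
      rw [H_zero hP hr' (Or.inl h2), inner_zero_right, inner_zero_right, mul_zero]
  simp_rw [h1]
  rw [integral_const_mul, int_Sm p (cs_sc p hr' hP.Hcs), mul_zero]

theorem psi_fderiv (hP : Pk Ψ H a κ h q q') {r : ℝ} (hr : 0 < r) {x : E3}
    (hx : x ∈ ball p (r * q)) (v : E3) :
    fderiv ℝ (sc p r Ψ) x v = ((r * √r)⁻¹ * r⁻¹ * a) • Sm v := by
  have h1 : sc p r Ψ =ᶠ[𝓝 x] fun y => ((r * √r)⁻¹ * r⁻¹ * a) • Sm (y - p) := by
    filter_upwards [isOpen_ball.mem_nhds hx] with y hy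
    exact psi_lin hP hr hy
  have h3 : HasFDerivAt (fun y => Sm (y - p)) (Sm.comp (ContinuousLinearMap.id ℝ E3)) x :=
    Sm.hasFDerivAt.comp x ((hasFDerivAt_id x).sub_const p)
  have h2 : HasFDerivAt (fun y => ((r * √r)⁻¹ * r⁻¹ * a) • Sm (y - p))
      (((r * √r)⁻¹ * r⁻¹ * a) • (Sm.comp (ContinuousLinearMap.id ℝ E3))) x :=
    h3.const_smul ((r * √r)⁻¹ * r⁻¹ * a)
  rw [h1.fderiv_eq, h2.fderiv]
  rfl

theorem cross_dirf (hP : Pk Ψ H a κ h q q') {r r' : ℝ} (hr : 0 < r) (hr' : 0 < r')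
    (hrr : r' ≤ r) : dirf (sc p r Ψ) (sc p r' H) = 0 := by
  unfold dirf
  have h1 : ∀ x, ∑ i : Fin 3, inner ℝ (fderiv ℝ (sc p r Ψ) x (cv i))
      (fderiv ℝ (sc p r' H) x (cv i)) = ((r * √r)⁻¹ * r⁻¹ * a) *
      ∑ i : Fin 3, inner ℝ (Sm (cv i)) (fderiv ℝ (sc p r' H) x (cv i)) := by
    intro x
    rw [Finset.mul_sum]
    refine Finset.sum_congr rfl fun i _ => ?_
    by_cases hx : x ∈ ball p (r * q)
    · rw [psi_fderiv hP hr hx, real_inner_smul_left]
    · have h2 : x ∉ tsupport (sc p r' H) := fun h =>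
        hx (ball_subset_ball (mul_le_mul_of_nonneg_right hrr (q0 hP).le) (H_supp hP hr' h).1)
      have h3 : fderiv ℝ (sc p r' H) x = 0 := fderiv_of_notMem_tsupport ℝ h2
      rw [h3]
      simp
  simp_rw [h1]
  rw [integral_const_mul, sum_deriv (cs_sc p hr' hP.Hcs), mul_zero]

end

/-- the main theorem of this file -/
theorem t_MM : S_MM := by
  intro p Ψ H a κ h q q' G δ r α ε lm L hP hR
  have hq1 : q' ≤ 1 := (hP.qq.trans hP.q1).le
  have hqp := q0 hP
  have hr1 : ∀ n, r (n + 1) ≤ r n := fun n => (hR.rstep n).trans (by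
    have := mul_le_mul_of_nonneg_right hq1 (hR.r0 n).le
    linarith)
  have hanti : Antitone r := antitone_nat_of_succ_le hr1
  have c1 : ∀ n, CS (ball p (r n)) (sc p (r n) Ψ) := by
    intro n
    have h1 := cs_sc p (hR.r0 n) hP.Ψcs
    refine ⟨h1.smooth, h1.cpt, fun x hx => ?_, h1.dv⟩
    have h2 := (sc_ball p (hR.r0 n)).1 (h1.supp hx)
    rwa [mul_one] at h2
  have c2 : ∀ n, CS (ball p (r (n + 1))) (sc p (r (n + 1)) H) := by
    intro n
    have h1 := cs_sc p (hR.r0 (n + 1)) hP.Hcs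
    refine ⟨h1.smooth, h1.cpt, fun x hx => ?_, h1.dv⟩
    refine ball_subset_ball ?_ (H_supp hP (hR.r0 (n + 1)) hx).1
    have := mul_le_mul_of_nonneg_left hP.q1.le (hR.r0 (n + 1)).le
    linarith
  have hlow : ∀ n, Low p (r (n + 1)) H (psi p Ψ H r α ε n) (Am a r α n) (ε n) := by
    intro n x hx
    unfold psi Am
    have h1 : x ∈ ball p (r n * q) := by
      refine ball_subset_ball ?_ hx
      have h2 := mul_le_mul_of_nonneg_left hP.qq.le (hR.r0 n).le
      have h3 := hR.rstep n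
      linarith
    rw [psi_lin hP (hR.r0 n) h1, smul_smul]
    congr 2
    have h0 := (hR.r0 n).ne'
    have h2 : √(r n) ≠ 0 := (Real.sqrt_pos.2 (hR.r0 n)).ne'
    field_simp
  refine ⟨fun n => ?_, hlow, ?_, ?_, ?_⟩
  · exact cs_comb (c1 n) (c2 n) subset_rfl (ball_subset_ball (hr1 n)) (α n) (ε n)
  · intro n m hnm x hx
    have h1 : r m ≤ r (n + 2) := hanti hnm
    have h2 : x ∈ ball p (r (n + 1)) := ball_subset_ball (hanti (by omega)) hx
    rw [hlow n x h2]
    congr 1
    rw [H_zero hP (hR.r0 (n + 1)) (Or.inr ?_), smul_zero, zero_smul]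
    refine ball_subset_closedBall (ball_subset_ball ?_ hx)
    have h3 := hR.rstep (n + 1)
    have h4 : q' * r (n + 1) = r (n + 1) * q' := mul_comm _ _
    have h5 : r (n + 1 + 1) = r (n + 2) := rfl
    linarith
  · intro n
    have h1 := ipr_comb (c1 n) (c2 n) (α n) (ε n)
    rw [ipr_sc p (hR.r0 n), ipr_sc p (hR.r0 (n + 1)), cross_ipr hP (hR.r0 n) (hR.r0 (n + 1))
      (hr1 n), hP.Ψn, hP.Hn] at h1
    have h2 := hR.αε n
    have h3 : ipr (psi p Ψ H r α ε n) (psi p Ψ H r α ε n) = α n ^ 2 * 1 +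
      2 * α n * ε n * 0 + ε n ^ 2 * 1 := h1
    rw [h3]
    linarith
  · intro n
    refine ⟨dirf_nonneg _, ?_⟩
    have h1 := dirf_comb (c1 n) (c2 n) (α n) (ε n)
    have dΨ := hP.Ψcs.smooth.differentiable (by norm_num)
    have dH := hP.Hcs.smooth.differentiable (by norm_num)
    rw [dirf_sc p (hR.r0 n) dΨ dΨ, dirf_sc p (hR.r0 (n + 1)) dH dH,
      cross_dirf hP (hR.r0 n) (hR.r0 (n + 1)) (hr1 n)] at h1
    have h3 : dirf (psi p Ψ H r α ε n) (psi p Ψ H r α ε n) = α n ^ 2 * ((r n ^ 2)⁻¹ * dirf Ψ Ψ) +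
      2 * α n * ε n * 0 + ε n ^ 2 * ((r (n + 1) ^ 2)⁻¹ * dirf H H) := h1
    rw [h3]
    have h4 := dirf_nonneg Ψ
    have h5 := dirf_nonneg H
    have h6 : α n ^ 2 ≤ 1 := by
      have := hR.αε n
      have := sq_nonneg (ε n)
      linarith
    have hrn := hR.r0 n
    have hrn1 := hR.r0 (n + 1)
    have h7 : ε n ^ 2 * r n ^ 2 * (r (n + 1) ^ 2)⁻¹ ≤ 1 := by
      rw [← div_eq_mul_inv, div_le_one (by positivity)]
      exact hR.εr n
    calc (α n ^ 2 * ((r n ^ 2)⁻¹ * dirf Ψ Ψ) + 2 * α n * ε n * 0 +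
        ε n ^ 2 * ((r (n + 1) ^ 2)⁻¹ * dirf H H)) * r n ^ 2 =
        α n ^ 2 * dirf Ψ Ψ * ((r n ^ 2)⁻¹ * r n ^ 2) +
          (ε n ^ 2 * r n ^ 2 * (r (n + 1) ^ 2)⁻¹) * dirf H H := by ring
      _ ≤ 1 * dirf Ψ Ψ + 1 * dirf H H := by
          rw [inv_mul_cancel₀ (by positivity), mul_one]
          exact add_le_add (mul_le_mul_of_nonneg_right h6 h4) (mul_le_mul_of_nonneg_right h7 h5)
      _ = dirf Ψ Ψ + dirf H H := by ring

end Pool.Agent.Y978.SK
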